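import Pool.Agent.AT8.Stmts1
import Pool.Agent.Helper28_AT8.LCL

/-!
# Squad AT8, row GEQ: compatibility with the power map
-/

open scoped BigOperators

noncomputable section

namespace Pool.Agent.PP.T8.H60

open Pool.Agent.Helper51_AWC Pool.Agent.Helper79_WRA Pool.Agent.PP Pool.Agent.PP.KF
open Pool.Agent.PP.K9 Pool.Agent.PP.K9.H97 Pool.Agent.PP.H75 Pool.Agent.PP.T3 Pool.Agent.PP.T2

attribute [local instance] Ideal.Quotient.field

/-- sums of functions supported on a subgroup -/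
theorem fsum_supp {G A : Type} [Group G] [Finite G] [AddCommMonoid A] (C : Subgroup G) (f : G → A)
    (h : ∀ g, g ∉ C → f g = 0) : ∑ᶠ g, f g = ∑ᶠ c : C, f c := by
  classical
  have h1 : ∑ᶠ g, f g = ∑ᶠ (g) (_ : g ∈ C), f g := by
    apply finsum_congr
    intro g
    by_cases hg : g ∈ C
    · rw [finsum_eq_if, if_pos hg]
    · rw [finsum_eq_if, if_neg hg, h g hg]
  rw [h1]
  exact (finsum_subtype_eq_finsum_cond (fun g => g ∈ C)).symm

theorem cu_pow {G : Type} [Group G] [Finite G] (z : G) {N : ℕ} (hN : N.Coprime (Nat.card G)) :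
    Cu (z ^ N) = Cu z := by
  ext g
  rw [Subgroup.mem_centralizer_singleton_iff, Subgroup.mem_centralizer_singleton_iff]
  constructor
  · intro h
    obtain ⟨k, hk⟩ := exists_pow_eq_self_of_coprime
      (Nat.Coprime.coprime_dvd_right (orderOf_dvd_natCard z) hN)
    have h1 : Commute g (z ^ N) := h
    have h2 := h1.pow_right k
    rw [hk] at h2
    exact h2
  · intro h
    have h1 : Commute g z := h
    exact (h1.pow_right N).eq

theorem geq (lft : LftStmt) (smi : SmiStmt) (prj : PrjStmt) : GeqStmt := by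
  intro ℓ _ M _ hM G _ _ N hN V hV hab i hi χ hχ z hz
  have hF : GoodF ℓ (FF M) := H50.fld ℓ Fact.out M hM
  have hzp : IsPGroup ℓ (Subgroup.zpowers z) := hV.to_le (Subgroup.zpowers_le.2 hz)
  have hcu := cu_pow z hN.cop
  have hzi : ∀ x, rd M i (z * x * z⁻¹) = rd M i x := by
    intro x
    unfold rd
    rw [hi.iv z hz]
  have hxx : mulF (rs (Cu z) (rd M i)) (rs (Cu z) (rd M i)) = rs (Cu z) (rd M i) := by
    rw [← H28.rs_mulF hF hzp hzi hzi, ← H28.rd_mulF hi.rm hi.rm, hi.id]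
  have hxs : ∀ g, g ∉ Cu z → rs (Cu z) (rd M i) g = 0 := by
    intro g hg
    unfold rs
    rw [if_neg hg]
  have hxin : ∀ g, g ∈ Cu z → rs (Cu z) (rd M i) g = rd M i g := by
    intro g hg
    unfold rs
    rw [if_pos hg]
  obtain ⟨j, hj, hjs, hjx⟩ := lft M G ⊥ (Cu z) (rs (Cu z) (rd M i)) hxx hxs (by
    intro v hv g
    rw [Subgroup.mem_bot] at hv
    rw [hv, one_mul, inv_one, mul_one])
  have hjr : ∀ g ∈ Cu z, rr M (j g) = rr M (i g) := by
    intro g hg
    have h1 := congrFun hjx g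
    rw [hxin g hg] at h1
    exact h1
  have hel : ∀ y ∈ V, El ℓ y := by
    intro y hy
    obtain ⟨n, hn⟩ := hV ⟨y, hy⟩
    refine ⟨n, ?_⟩
    have := congrArg Subtype.val hn
    simpa using this
  have hcl : ∀ x y, χ (y * x * y⁻¹) = χ x := fun x y => irr_conj hχ x y
  have hcl' : ∀ x y, (fun g => χ (g ^ N)) (y * x * y⁻¹) = (fun g => χ (g ^ N)) x := by
    intro x y
    show χ ((y * x * y⁻¹) ^ N) = χ (x ^ N)
    rw [conj_pow, hcl]
  have s1 := smi ℓ M hM G z (hel z hz) i j hi.rm hi.id (hi.iv z hz) hj.rm hj.id hjs hjr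
    (fun g => χ (g ^ N)) hcl'
  have s2 := smi ℓ M hM G (z ^ N) (hel _ (V.pow_mem hz N)) i j hi.rm hi.id
    (hi.iv _ (V.pow_mem hz N)) hj.rm hj.id (by rw [hcu]; exact hjs) (by rw [hcu]; exact hjr) χ hcl
  rw [s1, s2]
  -- restriction to `C(z)`
  have e1 : fv j (z ^ N) χ = ∑ᶠ c : Cu z, j c * χ (z ^ N * c) := by
    unfold fv
    exact fsum_supp (Cu z) (fun g => j g * χ (z ^ N * g)) (fun g hg => by
      rw [hjs g hg, zero_mul])
  have e2 : fv j z (fun g => χ (g ^ N)) = ∑ᶠ c : Cu z, j c * χ ((z * c) ^ N) := by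
    unfold fv
    exact fsum_supp (Cu z) (fun g => j g * χ ((z * g) ^ N)) (fun g hg => by
      rw [hjs g hg, zero_mul])
  have hid : mulF (fun c : Cu z => j c) (fun c : Cu z => j c) = fun c : Cu z => j c := by
    funext c
    have h1 := congrFun hj.id (c : G)
    unfold mulF at h1 ⊢
    rw [fsum_supp (Cu z) (fun t => j t * j (t⁻¹ * (c : G))) (fun g hg => by
      rw [hjs g hg, zero_mul])] at h1
    exact h1
  have hp := prj ℓ M hM (Cu z) (fun c => j c) (fun c => hj.rm c) hid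
    (fun c => χ (z ^ N * c) - χ ((z * c) ^ N)) ?_ ?_
  · have hfin := Fintype.ofFinite (Cu z)
    rw [e1, e2, finsum_eq_sum_of_fintype, finsum_eq_sum_of_fintype, ← sub_eq_zero,
      ← Finset.sum_sub_distrib]
    rw [finsum_eq_sum_of_fintype] at hp
    rw [← hp]
    refine Finset.sum_congr rfl fun c _ => ?_
    rw [mul_sub]
  · intro x y
    have hyz : (y : G) * z = z * y := Subgroup.mem_centralizer_singleton_iff.1 y.2
    have hc : Commute (y : G) z := hyz
    have h1 : z ^ N * ((y : G) * x * (y : G)⁻¹) = y * (z ^ N * x) * (y : G)⁻¹ := by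
      have h2 : (y : G) * z ^ N = z ^ N * y := (hc.pow_right N).eq
      rw [← mul_assoc (y : G) (z ^ N), h2]
      group
    have h3 : z * ((y : G) * x * (y : G)⁻¹) = y * (z * x) * (y : G)⁻¹ := by
      rw [← mul_assoc (y : G) z, hyz]
      group
    show χ (z ^ N * ((y : G) * x * (y : G)⁻¹)) - χ ((z * ((y : G) * x * (y : G)⁻¹)) ^ N) =
      χ (z ^ N * x) - χ ((z * x) ^ N)
    rw [h1, h3, conj_pow, hcl, hcl]
  · intro x hx
    show χ (z ^ N * x) - χ ((z * x) ^ N) = 0
    have hc : Commute z (x : G) := (Subgroup.mem_centralizer_singleton_iff.1 x.2).symm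
    have hx' : Reg ℓ (x : G) := by
      unfold Reg at hx ⊢
      rwa [Subgroup.orderOf_coe]
    rw [hc.mul_pow, hN.reg _ hx', sub_self]

end Pool.Agent.PP.T8.H60
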